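import Pool.Agent.helper51.QW.Spec

/-! # Project QW, row QWP: one class -/

set_option autoImplicit false

namespace Pool.Agent.PT

open Finset Pool.Agent.helper71.AA

/-- **CON** without hypotheses (the closing of helper36/PT/Main0.lean). -/
theorem QWP_con : CON_stmt := by
  have kls := KLS KLP
  have inc := INC (INA kls)
  have blk := BLK (OFE inc (WKS PSM) GCB) GCS DGN CAU
  have err := ERR (ERS (DYA blk))
  have cls := CLS FEJ
  have cfw := CFW RPS
  have mea := MEA cls CEX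
  have ubl := UBL RKN SGL
  have off := OFF (OFP err CEX (PAI cls CEX) cfw FAC COR LRG GPR)
  have fmo := FMO CEX mea cfw FAC LRG GPR
  exact CON off (FST ubl fmo LRG GPR cfw) (DIA fmo LRG GPR) cls

/-- the final inequality -/
lemma QWP_num {g x T G V A Vw l φ W X θ τ κ K S : ℝ} (hT : 0 < T) (hG : 0 < G)
    (hVw : 0 < Vw) (hl : 0 < l) (hφ : 0 < φ) (hW : 0 < W) (hκ : 0 < κ) (hX : 0 < X)
    (hx : x = X / W) (hA : A = φ / W)
    (hS : κ * (T * X / (φ * l)) ≤ S)
    (h1 : θ ^ 2 * G ^ 2 * S ≤ g * (T * G * V) + 2 * τ * x * (T * G * V))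
    (h2 : (1 - 0.0001) * A ≤ G * Vw) (h3 : Vw * V * l ≤ K) (hg : 0 ≤ g) (hτ : 0 ≤ τ) :
    θ ^ 2 * κ * (1 - 0.0001) * x ≤ (g + 2 * τ * x) * K := by
  have hx0 : 0 < x := by rw [hx]; positivity
  have e1 : θ ^ 2 * G ^ 2 * (κ * (T * X / (φ * l))) ≤ (g + 2 * τ * x) * (T * G * V) := by
    calc θ ^ 2 * G ^ 2 * (κ * (T * X / (φ * l))) ≤ θ ^ 2 * G ^ 2 * S :=
          mul_le_mul_of_nonneg_left hS (by positivity)
      _ ≤ g * (T * G * V) + 2 * τ * x * (T * G * V) := h1
      _ = _ := by ring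
  have e2 : θ ^ 2 * G * (κ * (X / (φ * l))) ≤ (g + 2 * τ * x) * V := by
    have h4 : (θ ^ 2 * G * (κ * (X / (φ * l)))) * (T * G) ≤ ((g + 2 * τ * x) * V) * (T * G) := by
      calc (θ ^ 2 * G * (κ * (X / (φ * l)))) * (T * G) =
            θ ^ 2 * G ^ 2 * (κ * (T * X / (φ * l))) := by ring
        _ ≤ (g + 2 * τ * x) * (T * G * V) := e1
        _ = _ := by ring
    exact le_of_mul_le_mul_right h4 (by positivity)
  have e3 : θ ^ 2 * κ * (1 - 0.0001) * x ≤ (θ ^ 2 * G * (κ * (X / (φ * l)))) * (Vw * l) := by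
    have h5 : θ ^ 2 * κ * (1 - 0.0001) * x = θ ^ 2 * κ * (X / φ) * ((1 - 0.0001) * A) := by
      rw [hx, hA]
      field_simp
    have h6 : (θ ^ 2 * G * (κ * (X / (φ * l)))) * (Vw * l) = θ ^ 2 * κ * (X / φ) * (G * Vw) := by
      field_simp
    rw [h5, h6]
    exact mul_le_mul_of_nonneg_left h2 (by positivity)
  calc θ ^ 2 * κ * (1 - 0.0001) * x ≤ (θ ^ 2 * G * (κ * (X / (φ * l)))) * (Vw * l) := e3
    _ ≤ ((g + 2 * τ * x) * V) * (Vw * l) := mul_le_mul_of_nonneg_right e2 (by positivity)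
    _ = (g + 2 * τ * x) * (Vw * V * l) := by ring
    _ ≤ (g + 2 * τ * x) * K := mul_le_mul_of_nonneg_left h3 (by positivity)

/-- numbers -/
lemma QWP_num2 {g x θ κ K : ℝ} (hx : 0 < x) (hθ : 0.9999 ≤ θ)
    (hκ : κ = (1 - 0.0001) / 1.0002 - 0.00002) (hK : K = 2 / 0.553 + 0.0001)
    (h : θ ^ 2 * κ * (1 - 0.0001) * x ≤ (g + 2 * 0.00001 * x) * K) : 0.2761 * x ≤ g := by
  have h1 : (0.9996 : ℝ) ≤ κ := by rw [hκ]; norm_num
  have h2 : K ≤ 3.6168 := by rw [hK]; norm_num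
  have h3 : 0 < K := by rw [hK]; norm_num
  have h4 : (0.9998 : ℝ) ≤ θ ^ 2 := by nlinarith
  have h5 : 0.9993 * x ≤ θ ^ 2 * κ * (1 - 0.0001) * x := by
    refine mul_le_mul_of_nonneg_right ?_ hx.le
    nlinarith
  have h6 : 0.9993 * x ≤ (g + 2 * 0.00001 * x) * K := h5.trans h
  have h7 : 0 < g + 2 * 0.00001 * x := by
    by_contra hcon
    have : (g + 2 * 0.00001 * x) * K ≤ 0 := mul_nonpos_of_nonpos_of_nonneg (not_lt.1 hcon) h3.le
    linarith
  have h8 : 0.9993 * x ≤ (g + 2 * 0.00001 * x) * 3.6168 :=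
    h6.trans (mul_le_mul_of_nonneg_left h2 h7.le)
  linarith

/-- Cauchy's inequality -/
lemma QWP_cauchy (S : Finset ℕ) (f : ℕ → ℝ) (n B : ℝ) (hn : (S.card : ℝ) ≤ n) (hB : ∑ a ∈ S, f a ^ 2 ≤ B) (hn0 : 0 ≤ n) :
    (∑ a ∈ S, |f a|) ^ 2 ≤ n * B := by
  have h1 : (∑ a ∈ S, |f a|) ^ 2 ≤ (S.card : ℝ) * ∑ a ∈ S, |f a| ^ 2 := by
    have := sq_sum_le_card_mul_sum_sq (s := S) (f := fun a => |f a|)
    exact this
  have h2 : ∑ a ∈ S, |f a| ^ 2 = ∑ a ∈ S, f a ^ 2 := sum_congr rfl fun a _ => sq_abs _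
  rw [h2] at h1
  have h3 : 0 ≤ ∑ a ∈ S, f a ^ 2 := sum_nonneg fun a _ => sq_nonneg _
  exact h1.trans (mul_le_mul hn hB h3 hn0)

theorem QWP (h1 : QWA_stmt) (h2 : QWB_stmt) (h3 : QWM_stmt) (h4 : QWV_stmt) : QWP_stmt := by
  classical
  obtain ⟨η₁, hη₁, hA⟩ := h1 0.0001 (by norm_num)
  obtain ⟨η₂, hη₂, hB⟩ := h2 0.0001 (by norm_num)
  obtain ⟨η₃, hη₃, hcon⟩ := QWP_con (0.00001 ^ 2) (by norm_num)
  set η : ℝ := min (min η₁ η₂) (min η₃ (1 / 20)) with hηd
  have hη : 0 < η := lt_min (lt_min hη₁ hη₂) (lt_min hη₃ (by norm_num))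
  have hηa : η ≤ η₁ := (min_le_left _ _).trans (min_le_left _ _)
  have hηb : η ≤ η₂ := (min_le_left _ _).trans (min_le_right _ _)
  have hηc : η ≤ η₃ := (min_le_right _ _).trans (min_le_left _ _)
  have hηe : η ≤ 1 / 20 := (min_le_right _ _).trans (min_le_right _ _)
  obtain ⟨w₀, hcon'⟩ := hcon η hη hηc
  obtain ⟨Xa, hA'⟩ := hA η hη hηa
  refine ⟨max w₀ 20000, fun w hw => ?_⟩
  have hw0 : w₀ ≤ w := (le_max_left _ _).trans hw
  have hw2 : 20000 ≤ w := (le_max_right _ _).trans hw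
  obtain ⟨Xb, hB'⟩ := hB η hη hηb w (by omega)
  obtain ⟨C, Xc, hC, hcc⟩ := hcon' w hw0
  obtain ⟨Xm, hM⟩ := h3 w 0.0001 (by omega) (by norm_num)
  obtain ⟨Xv, hV⟩ := h4 w (by omega) η hη hηe
  obtain ⟨P₀, hP₀⟩ := Ps_lower w
  set W : ℝ := (primorial w : ℝ) with hW
  have hW0 : 0 < W := by rw [hW]; exact_mod_cast primorial_pos w
  set φW : ℝ := (Nat.totient (primorial w) : ℝ) with hφ
  have hφ0 : 0 < φW := by
    rw [hφ]; exact_mod_cast Nat.totient_pos.2 (primorial_pos w)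
  have hφW : φW ≤ W := by
    rw [hφ, hW]; exact_mod_cast Nat.totient_le _
  have hAw : Aw w = φW / W := rfl
  set D : ℝ := max C 1 with hD
  have hD1 : 1 ≤ D := le_max_right _ _
  have hD0 : 0 < D := by linarith
  set c : ℝ := 0.00001 / (64 * φW) with hc
  have hc0 : 0 < c := by rw [hc]; positivity
  have hev : ∀ᶠ X : ℝ in Filter.atTop, 2 ≤ X ∧ 1 ≤ Real.log X ∧
      max P₀ 3 ≤ D * Real.log X * Real.log (Real.log X) ∧ W ≤ X ∧ 1 ≤ Real.log (Real.log X) ∧
      X ^ (0.9 : ℝ) ≤ 0.00001 * (X / (φW * Real.log X)) := by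
    have e1 := L1_eventually D 0 (max P₀ 3) W 1 (1 / 10) 1 1 hD0 hW0 one_pos (by norm_num)
      le_rfl one_pos one_pos
    have e2 : ∀ᶠ X : ℝ in Filter.atTop, Real.log X ≤ (0.00001 / φW) * X ^ (0.1 : ℝ) := by
      have h2 : ∀ᶠ X : ℝ in Filter.atTop, 1 ≤ Real.log X :=
        Real.tendsto_log_atTop.eventually_ge_atTop 1
      have := (isLittleO_log_rpow_atTop (show (0 : ℝ) < 0.1 by norm_num)).bound
        (show 0 < 0.00001 / φW by positivity)
      filter_upwards [this, h2, Filter.eventually_ge_atTop 2] with X hX h hX2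
      rw [Real.norm_eq_abs, Real.norm_eq_abs, abs_of_nonneg (by linarith),
        abs_of_nonneg (by positivity)] at hX
      exact hX
    have e3 : ∀ᶠ X : ℝ in Filter.atTop, 1 ≤ Real.log (Real.log X) :=
      (Real.tendsto_log_atTop.comp Real.tendsto_log_atTop).eventually_ge_atTop _
    filter_upwards [e1, e2, e3, Filter.eventually_ge_atTop W] with X hX hX2 hX3 hX4
    have hX0 : 0 < X := by linarith [hX.1]
    have hl : 0 < Real.log X := by linarith [hX.2.1]
    refine ⟨hX.1, hX.2.1, hX.2.2.1, hX4, hX3, ?_⟩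
    rw [← mul_div_assoc, le_div_iff₀ (by positivity)]
    calc X ^ (0.9 : ℝ) * (φW * Real.log X) ≤ X ^ (0.9 : ℝ) * (φW * ((0.00001 / φW) * X ^ (0.1 : ℝ))) := by
          refine mul_le_mul_of_nonneg_left (mul_le_mul_of_nonneg_left hX2 hφ0.le) (by positivity)
      _ = 0.00001 * (X ^ (0.9 : ℝ) * X ^ (0.1 : ℝ)) := by
          field_simp
      _ = 0.00001 * X := by
          rw [← Real.rpow_add hX0]
          norm_num
  obtain ⟨Xe, hXe'⟩ := Filter.eventually_atTop.1 hev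
  refine ⟨c, D, max (max (max Xa Xb) (max Xc Xm)) (max Xv Xe), hc0, hD0, ?_⟩
  intro X P hX hR a₀ b hb hab
  have hXa : Xa ≤ X := (le_max_left _ _).trans ((le_max_left _ _).trans ((le_max_left _ _).trans hX))
  have hXb : Xb ≤ X := (le_max_right _ _).trans ((le_max_left _ _).trans ((le_max_left _ _).trans hX))
  have hXc : Xc ≤ X := (le_max_left _ _).trans ((le_max_right _ _).trans ((le_max_left _ _).trans hX))
  have hXm : Xm ≤ X := (le_max_right _ _).trans ((le_max_right _ _).trans ((le_max_left _ _).trans hX))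
  have hXv : Xv ≤ X := (le_max_left _ _).trans ((le_max_right _ _).trans hX)
  have hXe : Xe ≤ X := (le_max_right _ _).trans ((le_max_right _ _).trans hX)
  obtain ⟨hXtwo, hlogX, hP1, hWX, hll, hrare⟩ := hXe' X hXe
  have hX0 : 0 < X := by linarith
  have hX1 : 1 ≤ X := by linarith
  have hlogX0 : 0 < Real.log X := by linarith
  have hll0 : 0 ≤ Real.log X * Real.log (Real.log X) := mul_nonneg hlogX0.le (by linarith)
  have hRC : Rg2 C X P := by
    refine ⟨le_trans ?_ hR.1, hR.2⟩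
    rw [mul_assoc, mul_assoc]
    exact mul_le_mul_of_nonneg_right (le_max_left _ _) hll0
  have hR1 : Rg2 1 X P := by
    refine ⟨le_trans ?_ hR.1, hR.2⟩
    rw [mul_assoc, mul_assoc]
    exact mul_le_mul_of_nonneg_right hD1 hll0
  have hPP : max P₀ 3 ≤ P := hP1.trans hR.1
  have hPP0 : P₀ ≤ P := (le_max_left _ _).trans hPP
  have hP3 : 3 ≤ P := (le_max_right _ _).trans hPP
  have hlogP : 0 < Real.log P := Real.log_pos (by linarith)
  obtain ⟨ξ, had, hξ, hV1, hV2, hV3⟩ := hA' X hXa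
  set PS := Ps (primorial w) b P with hPS
  set AS := As (primorial w) a₀ X with hAS
  set T : ℝ := (PS.card : ℝ) with hTd
  set G : ℝ := Gs (Qm w X η) (Rr X) with hG
  set V : ℝ := Vx (Ql X η) ξ with hVd
  have hTlow : P / (32 * φW * Real.log P) ≤ T := hP₀ P hPP0 b hb
  have hT0 : 0 < T := lt_of_lt_of_le (by positivity) hTlow
  have hV0 : 0 < V := lt_of_lt_of_le hη hV1
  have hVw0 : 0 < MK.Vw (X ^ η) := by
    have hG2 := hB' X hXb
    by_contra hcon2
    have h5 : 0 ≤ MK.Vw (X ^ η) := by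
      unfold MK.Vw
      refine prod_nonneg fun p hp => ?_
      have hp1 : 1 ≤ (p : ℝ) ∨ (p : ℝ) = 0 := by
        rcases Nat.eq_zero_or_pos p with h | h
        · exact Or.inr (by exact_mod_cast h)
        · exact Or.inl (by exact_mod_cast h)
      rcases hp1 with h | h
      · have : 1 / (p : ℝ) ≤ 1 := by
          rw [div_le_one (by linarith)]
          exact h
        linarith
      · rw [h]; norm_num
    have h6 : MK.Vw (X ^ η) = 0 := le_antisymm (not_lt.1 hcon2) h5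
    rw [h6, mul_zero, hAw] at hG2
    have : 0 < (1 - 0.0001) * (φW / W) := by
      have : 0 < φW / W := by positivity
      nlinarith
    linarith
  have hGB := hB' X hXb
  have hG0 : 0 < G := by
    have h5 : 0 < G * MK.Vw (X ^ η) := by
      refine lt_of_lt_of_le ?_ hGB
      rw [hAw]
      have : 0 < φW / W := by positivity
      nlinarith
    exact (pos_iff_pos_of_mul_pos h5).2 hVw0
  set m : ℝ := T * G * V with hm
  have hm0 : 0 < m := by positivity
  set B : ℕ → ℝ := fun a => ∑ p ∈ PS, ft w X η ξ p (a : ℤ) with hBd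
  have hBn : ∀ a, 0 ≤ B a := fun a => sum_nonneg fun p _ => CON_ft_nonneg had p a
  have hcard : (AS.card : ℝ) ≤ 2 * (X / W) := by
    have h5 := K4_card (primorial w) a₀ (primorial_pos w) X hX0.le
    have h6 : 1 ≤ X / W := by
      rw [le_div_iff₀ hW0]
      linarith
    calc (AS.card : ℝ) ≤ X / W + 1 := h5
      _ ≤ _ := by linarith
  have hx0 : 0 < X / W := by positivity
  -- the concentration
  have hconc : ∑ a ∈ AS, |B a - m| ≤ 2 * 0.00001 * (X / W) * m := by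
    have h5 := hcc X P hXc hRC a₀ b hb ξ had hV0.le hV2
    have h6 := QWP_cauchy AS (fun a => B a - m) _ _ hcard h5 (by positivity)
    have h7 : (2 * (X / W)) * (0.00001 ^ 2 * (X / W) * (T * G * η) ^ 2) ≤ (2 * 0.00001 * (X / W) * m) ^ 2 := by
      have h8 : T * G * η ≤ m := by
        rw [hm]
        exact mul_le_mul_of_nonneg_left hV1 (by positivity)
      have h9 : (T * G * η) ^ 2 ≤ m ^ 2 := pow_le_pow_left₀ (by positivity) h8 2
      calc (2 * (X / W)) * (0.00001 ^ 2 * (X / W) * (T * G * η) ^ 2)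
          = 2 * (0.00001 * (X / W)) ^ 2 * (T * G * η) ^ 2 := by ring
        _ ≤ 4 * (0.00001 * (X / W)) ^ 2 * m ^ 2 :=
            mul_le_mul (by nlinarith [sq_nonneg (0.00001 * (X / W))]) h9 (by positivity) (by positivity)
        _ = _ := by ring
    exact le_of_sq_le_sq (h6.trans h7) (by positivity)
  set GG := AS.filter (fun a => c * P / (Real.log P * Real.log X) ≤
    ((Rq (primorial w) b P a).card : ℝ)) with hGG
  -- the sum over the good coefficients
  have hup : ∑ a ∈ GG, B a ≤ (GG.card : ℝ) * m + 2 * 0.00001 * (X / W) * m := by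
    calc ∑ a ∈ GG, B a ≤ ∑ a ∈ GG, (m + |B a - m|) :=
          sum_le_sum fun a _ => by linarith [le_abs_self (B a - m)]
      _ = (GG.card : ℝ) * m + ∑ a ∈ GG, |B a - m| := by
          rw [sum_add_distrib, sum_const, nsmul_eq_mul]
      _ ≤ (GG.card : ℝ) * m + ∑ a ∈ AS, |B a - m| := by
          have := sum_le_sum_of_subset_of_nonneg (filter_subset _ _ : GG ⊆ AS)
            (f := fun a => |B a - m|) fun a _ _ => abs_nonneg _
          linarith
      _ ≤ _ := by linarith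
  set N : ℕ → ℝ := fun a => ((Rq (primorial w) b P a).card : ℝ) with hN
  have hNn : ∀ a, 0 ≤ N a := fun a => Nat.cast_nonneg _
  set θ : ℝ := 1 - 2 / w with hθ
  have hwr : (20000 : ℝ) ≤ w := by exact_mod_cast hw2
  have hθ1 : 0.9999 ≤ θ := by
    rw [hθ]
    have : (2 : ℝ) / w ≤ 2 / 20000 := div_le_div_of_nonneg_left (by norm_num) (by norm_num) hwr
    norm_num at this ⊢
    linarith
  have hpt : ∀ a ∈ AS, X ^ (0.9 : ℝ) ≤ (a : ℝ) → θ ^ 2 * G ^ 2 * N a ≤ B a := by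
    intro a ha ha9
    have haX : (a : ℝ) ≤ X := by
      rw [hAS] at ha
      unfold As at ha
      have h5 := (mem_Icc.1 (mem_filter.1 ha).1)
      exact (Nat.le_floor_iff hX0.le).1 h5.2
    have h6 : ∀ p ∈ Rq (primorial w) b P a, θ ^ 2 * G ^ 2 ≤ ft w X η ξ p (a : ℤ) := by
      intro p hp
      unfold Rq at hp
      rw [mem_filter] at hp
      have hpp : p.Prime := K4_prime hp.1
      have hwp : w < p := by
        exact K4_gt hb hp.1
      exact hV X hXv ξ hξ a p ha9 haX hpp hwp hp.2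
    calc θ ^ 2 * G ^ 2 * N a = ∑ p ∈ Rq (primorial w) b P a, θ ^ 2 * G ^ 2 := by
          rw [sum_const, nsmul_eq_mul]; ring
      _ ≤ ∑ p ∈ Rq (primorial w) b P a, ft w X η ξ p (a : ℤ) := sum_le_sum h6
      _ ≤ B a := by
          refine sum_le_sum_of_subset_of_nonneg ?_ fun p _ _ => CON_ft_nonneg had p a
          unfold Rq
          exact filter_subset _ _
  have hlow : θ ^ 2 * G ^ 2 * ∑ a ∈ GG.filter (fun a : ℕ => X ^ (0.9 : ℝ) ≤ (a : ℝ)), N a ≤ ∑ a ∈ GG, B a := by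
    rw [mul_sum]
    calc ∑ a ∈ GG.filter (fun a : ℕ => X ^ (0.9 : ℝ) ≤ (a : ℝ)), θ ^ 2 * G ^ 2 * N a
        ≤ ∑ a ∈ GG.filter (fun a : ℕ => X ^ (0.9 : ℝ) ≤ (a : ℝ)), B a := by
          refine sum_le_sum fun a ha => ?_
          have h5 := mem_filter.1 ha
          exact hpt a (mem_filter.1 h5.1).1 h5.2
      _ ≤ _ := sum_le_sum_of_subset_of_nonneg (filter_subset _ _) fun a _ _ => hBn a
  -- the first moment
  have hS1 : (1 - 0.0001) * (T * X / (φW * (1.0002 * Real.log X))) ≤ ∑ a ∈ AS, N a := by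
    have h5 := hM X P hXm hR1 a₀ b hb hab
    refine h5.trans (le_of_eq ?_)
    have h6 : ∀ p ∈ PS, (((AS.filter (fun a => (a * p ^ 2 - 1).Prime)).card : ℕ) : ℝ) =
        ∑ a ∈ AS, if (a * p ^ 2 - 1).Prime then (1 : ℝ) else 0 := by
      intro p _
      rw [card_filter]
      push_cast
      rfl
    rw [sum_congr rfl h6, sum_comm]
    refine sum_congr rfl fun a _ => ?_
    simp only [hN, Rq]
    rw [card_filter]
    push_cast
    rfl
  have hNT : ∀ a, N a ≤ T := by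
    intro a
    simp only [hN, Rq, hTd]
    exact_mod_cast card_filter_le _ _
  have hS2 : ∑ a ∈ AS.filter (fun a => ¬ (c * P / (Real.log P * Real.log X) ≤ N a)), N a ≤
      0.00001 * (T * X / (φW * Real.log X)) := by
    have h5 : ∑ a ∈ AS.filter (fun a => ¬ (c * P / (Real.log P * Real.log X) ≤ N a)), N a ≤
        (AS.card : ℝ) * (c * P / (Real.log P * Real.log X)) := by
      calc _ ≤ ∑ a ∈ AS.filter (fun a => ¬ (c * P / (Real.log P * Real.log X) ≤ N a)),
            (c * P / (Real.log P * Real.log X)) :=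
            sum_le_sum fun a ha => (not_le.1 (mem_filter.1 ha).2).le
        _ ≤ ∑ a ∈ AS, (c * P / (Real.log P * Real.log X)) :=
            sum_le_sum_of_subset_of_nonneg (filter_subset _ _) fun a _ _ => by positivity
        _ = _ := by rw [sum_const, nsmul_eq_mul]
    have h6 : P / Real.log P ≤ 32 * φW * T := by
      rw [div_le_iff₀ (by positivity)] at hTlow ⊢
      linarith
    have h7 : c * P / (Real.log P * Real.log X) ≤ c * (32 * φW * T) / Real.log X := by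
      have : c * P / (Real.log P * Real.log X) = c * (P / Real.log P) / Real.log X := by
        field_simp
      rw [this]
      exact div_le_div_of_nonneg_right (mul_le_mul_of_nonneg_left h6 hc0.le) hlogX0.le
    refine h5.trans ?_
    calc (AS.card : ℝ) * (c * P / (Real.log P * Real.log X)) ≤
          (2 * (X / W)) * (c * (32 * φW * T) / Real.log X) :=
          mul_le_mul hcard h7 (by positivity) (by positivity)
      _ = 0.00001 * (T * X / (W * Real.log X)) := by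
          rw [hc]
          field_simp
          ring
      _ ≤ 0.00001 * (T * X / (φW * Real.log X)) := by
          refine mul_le_mul_of_nonneg_left ?_ (by norm_num)
          refine div_le_div_of_nonneg_left (by positivity) (by positivity) ?_
          exact mul_le_mul_of_nonneg_right hφW hlogX0.le
  have hS3 : ∑ a ∈ AS.filter (fun a : ℕ => ¬ (X ^ (0.9 : ℝ) ≤ (a : ℝ))), N a ≤
      0.00001 * (T * X / (φW * Real.log X)) := by
    have h5 : ((AS.filter (fun a : ℕ => ¬ (X ^ (0.9 : ℝ) ≤ (a : ℝ)))).card : ℝ) ≤ X ^ (0.9 : ℝ) := by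
      have h6 : AS.filter (fun a : ℕ => ¬ (X ^ (0.9 : ℝ) ≤ (a : ℝ))) ⊆ Icc 1 ⌊X ^ (0.9 : ℝ)⌋₊ := by
        intro a ha
        rw [mem_filter] at ha
        have h7 := ha.1
        rw [hAS] at h7
        unfold As at h7
        rw [mem_Icc]
        refine ⟨(mem_Icc.1 (mem_filter.1 h7).1).1, Nat.le_floor (not_le.1 ha.2).le⟩
      have h8 := card_le_card h6
      rw [Nat.card_Icc, Nat.add_sub_cancel] at h8
      calc ((AS.filter (fun a : ℕ => ¬ (X ^ (0.9 : ℝ) ≤ (a : ℝ)))).card : ℝ) ≤ (⌊X ^ (0.9 : ℝ)⌋₊ : ℝ) := by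
            exact_mod_cast h8
        _ ≤ _ := Nat.floor_le (by positivity)
    calc _ ≤ ∑ a ∈ AS.filter (fun a : ℕ => ¬ (X ^ (0.9 : ℝ) ≤ (a : ℝ))), T := sum_le_sum fun a _ => hNT a
      _ = ((AS.filter (fun a : ℕ => ¬ (X ^ (0.9 : ℝ) ≤ (a : ℝ)))).card : ℝ) * T := by
          rw [sum_const, nsmul_eq_mul]
      _ ≤ (0.00001 * (X / (φW * Real.log X))) * T :=
          mul_le_mul_of_nonneg_right (h5.trans hrare) hT0.le
      _ = _ := by ring
  have hSsum : ∑ a ∈ AS, N a ≤ ∑ a ∈ GG.filter (fun a : ℕ => X ^ (0.9 : ℝ) ≤ (a : ℝ)), N a +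
      ∑ a ∈ AS.filter (fun a => ¬ (c * P / (Real.log P * Real.log X) ≤ N a)), N a +
      ∑ a ∈ AS.filter (fun a : ℕ => ¬ (X ^ (0.9 : ℝ) ≤ (a : ℝ))), N a := by
    have h5 : AS ⊆ (GG.filter (fun a : ℕ => X ^ (0.9 : ℝ) ≤ (a : ℝ)) ∪
        AS.filter (fun a => ¬ (c * P / (Real.log P * Real.log X) ≤ N a))) ∪
        AS.filter (fun a : ℕ => ¬ (X ^ (0.9 : ℝ) ≤ (a : ℝ))) := by
      intro a ha
      rw [mem_union, mem_union]
      by_cases h6 : X ^ (0.9 : ℝ) ≤ (a : ℝ)
      · by_cases h7 : c * P / (Real.log P * Real.log X) ≤ N a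
        · exact Or.inl (Or.inl (mem_filter.2 ⟨mem_filter.2 ⟨ha, h7⟩, h6⟩))
        · exact Or.inl (Or.inr (mem_filter.2 ⟨ha, h7⟩))
      · exact Or.inr (mem_filter.2 ⟨ha, h6⟩)
    have h8 : ∀ s t : Finset ℕ, ∑ a ∈ s ∪ t, N a ≤ ∑ a ∈ s, N a + ∑ a ∈ t, N a := by
      intro s t
      have h9 := sum_union_inter (s₁ := s) (s₂ := t) (f := N)
      have h10 : 0 ≤ ∑ a ∈ s ∩ t, N a := sum_nonneg fun a _ => hNn a
      linarith
    calc ∑ a ∈ AS, N a ≤ _ := sum_le_sum_of_subset_of_nonneg h5 fun a _ _ => hNn a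
      _ ≤ _ := h8 _ _
      _ ≤ _ := add_le_add (h8 _ _) le_rfl
  have hS : ((1 - 0.0001) / 1.0002 - 0.00002) * (T * X / (φW * Real.log X)) ≤
      ∑ a ∈ GG.filter (fun a : ℕ => X ^ (0.9 : ℝ) ≤ (a : ℝ)), N a := by
    have h5 : (1 - 0.0001) * (T * X / (φW * (1.0002 * Real.log X))) =
        ((1 - 0.0001) / 1.0002) * (T * X / (φW * Real.log X)) := by
      field_simp
    rw [h5] at hS1
    rw [sub_mul]
    linarith
  have hfin := QWP_num (g := (GG.card : ℝ)) (x := X / W) (T := T) (G := G) (V := V) (A := Aw w)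
    (Vw := MK.Vw (X ^ η)) (l := Real.log X) (φ := φW) (W := W) (X := X) (θ := θ) (τ := 0.00001)
    (κ := (1 - 0.0001) / 1.0002 - 0.00002) (K := 2 / 0.553 + 0.0001)
    (S := ∑ a ∈ GG.filter (fun a : ℕ => X ^ (0.9 : ℝ) ≤ (a : ℝ)), N a)
    hT0 hG0 hVw0 hlogX0 hφ0 hW0 (by norm_num) hX0 rfl hAw hS
    (hlow.trans hup) hGB hV3 (Nat.cast_nonneg _) (by norm_num)
  exact QWP_num2 hx0 hθ1 rfl rfl hfin

end Pool.Agent.PT
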