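import Pool.Agent.helper31.QW.QWA
import Pool.Agent.helper28.QW.QWB
import Pool.Agent.helper79.QW.QWS
import Pool.Agent.helper64.QW.QWL
import Pool.Agent.helper49.QW.QWN
import Pool.Agent.helper80.QW.QWM
import Pool.Agent.helper8.QW.QWV
import Pool.Agent.helper51.QW.QWP
import Pool.Agent.helper83.QW.QWF

/-! # Project QW: assembly -/

set_option autoImplicit false

namespace Pool.Agent.PT

theorem QWF_all : QWF_stmt := QWF (QWP QWA QWB (QWM QWS QWL QWN) QWV)

end Pool.Agent.PT
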