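import Pool.Agent.helper36.PT.Main
import Pool.Agent.helper17.MK.All
import Pool.Agent.helper85.SQ.FIN

/-!
# Project QW (MP_ad8ced_nt, PositiveProportion v2): `a p² - 1` prime for at least 27.6 percent of the coefficients

THEOREM. For all `ε > 0` and squarefree `M` there are `c, C > 0`, `X₀`: for `X ≥ X₀` and
`C log X log log X ≤ P ≤ X ^ (1 / 10000)` at least `(0.2765 - ε)` of the even `a ≤ X` with `a ≡ 8 mod M`, `a ≢ 1 mod 3` have at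
least `c P / (log P log X)` primes `p ≤ P` with `a p² - 1` prime. (`0.2765 = 0.553 / 2`; the parity limit is `1 / 2`; second
moments with Bombieri-Vinogradov give `1 / 4`.)

PLAN. Project PT (helper36): for weights `ξ` of level `X ^ 0.553` the sum over `p` of the sieve majorant of `1 (a p² - 1 prime)` is for
almost all `a` in a class modulo `primorial w` as expected (`CON`). For Rosser's upper weights this is at most `2 / 0.553` times the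
expected number of primes (QWA, QWB; `MK.SV_all`). The mean number of primes is as expected (QWS, QWL, QWN, QWM). So the `a`
with at least one prime (or `c P / (log P log X)` primes) have at least the proportion `0.553 / 2` (QWP), sum over classes (QWF).

RULES. Row `XX`: file `Pool/Agent/<seat>/QW/XX.lean`, `import Pool.Agent.helper51.QW.Spec`, `namespace Pool.Agent.PT`,
`open Finset Pool.Agent.helper71.AA`, `theorem XX (h1 : YY_stmt) ... : XX_stmt` with only the hypotheses named after `From` (in this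
order); auxiliary lemmas prefixed `XX_`. No `convert`, no `congr!`, no kernel-free decision procedure, no straight double quotes. All
theorems of the projects PT, AA, MK, RLS, SQ, TG imported here may be used directly.
-/

set_option autoImplicit false

namespace Pool.Agent.PT

open Finset Pool.Agent.helper71.AA

/-- **QWA** (the weights; medium). Put `W = X ^ η`, `L = 0.553 log X = u log W`, `u = 0.553 / η`, `z = exp (L / 3) ≤ X ^ 0.47`, and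
`ξ K = RLS.lam true L K` if `K ⊆ RLS.PP W z`, otherwise `0`. `AdmL`: `bd`: `RLS.LA_all`; `su`: `WTA` (`PP W z ⊆ Ql`) and `MK.MW_all` (first
part: `∏ ≤ exp L = X ^ 0.553`); `ct`: `RLS.CT_all` with `al = 0.445 log X`, `be = 0.108 log X`; `nn`: `WTA` (`U ξ T = ∑_(K ⊆ T ∩ PP) ξ K`) and
`RLS.SI_all`. `ξ ∅ = 1`: `RLS.LA_all`. `Vx (Ql X η) ξ = MK.Mn (RLS.lam true L) MK.gi (RLS.PP W z)` (`WTA`), so the last claim is the second claim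
of `MK.SV_all` for `eps' = 0.553 * eps / 2` (choose `η₀ = min (0.553 / u₀) ..`, for `η ≤ η₀` `u = 0.553 / η ≥ u₀`, then `X` large so that `X ^ η ≥ w₀`). `Vx ≤ 20 η`:
`RLS.GEN_all` with `RLS.DP_all`, `F 3 = A / 3 ≤ 4 / 3`, `log W / log z = 3 η / 0.553`. `η ≤ Vx`: `RLS.SI_all` and `Rep_Ex` / `Ex_nonneg` (or `EC.EXV`): the main term is at least
`∏_(p ∈ PP) (1 - 1/p)`, and this is `≥ log W / log z - C / log W` by `RLS.ME_all` (Mertens). Compare `WTS` (Pool/Agent/helper31/PT/WTS.lean),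
which does the same for other levels with `RLS.FIN_all`. -/
def QWA_stmt : Prop := ∀ eps : ℝ, 0 < eps → ∃ η₀ : ℝ, 0 < η₀ ∧ ∀ η : ℝ, 0 < η → η ≤ η₀ → ∃ X₀ : ℝ, ∀ X : ℝ, X₀ ≤ X →
  ∃ ξ : Finset ℕ → ℝ, AdmL X η ξ ∧ ξ ∅ = 1 ∧ η ≤ Vx (Ql X η) ξ ∧ Vx (Ql X η) ξ ≤ 20 * η ∧
    MK.Vw (X ^ η) * Vx (Ql X η) ξ * Real.log X ≤ 2 / 0.553 + eps

/-- **QWB** (Selberg's sum; short, medium). `Q = Qm w X η = Qs w Z`, `Z = ⌊X ^ η⌋₊`, `Π = ∏_(l ∈ Q) (1 + 1/(l-1)) = ∑_(K ⊆ Q) 1 / ph K`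
(`Finset.prod_one_add`), `Gs Q R = Π - ∑_(R < pr K) 1 / ph K ≥ Π (1 - K₀ R ^ (-1 / log Z))` by `RKN` with `y = R = Rr X = X ^ 0.00001`, and
`R ^ (-1 / log Z) ≤ exp (-0.00001 / η)` (`log Z ≤ η log X`). `Aw w = ∏_(l ≤ w) (1 - 1/l)` (totient of the primorial), so
`MK.Vw (X ^ η) = Aw w ∏_(l ∈ Q) (1 - 1/l)` for `w ≤ X ^ η`, and `(1 - 1/l)(1 + 1/(l-1)) = 1`. -/
def QWB_stmt : Prop := ∀ eps : ℝ, 0 < eps → ∃ η₀ : ℝ, 0 < η₀ ∧ ∀ η : ℝ, 0 < η → η ≤ η₀ → ∀ w : ℕ, 2 ≤ w →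
  ∃ X₀ : ℝ, ∀ X : ℝ, X₀ ≤ X → (1 - eps) * Aw w ≤ Gs (Qm w X η) (Rr X) * MK.Vw (X ^ η)

/-- **QWS** (Siegel-Walfisz; short, medium). As `Pool.Agent.helper85.SQ.FS_of` (Pool/Agent/helper19/SQ/FS0.lean) with
`siegel_walfisz (2 B + 2) (2 B + 1)` (Pool/Agent/helper74/TG/SW.lean): modulus `M p² ≤ (log N) ^ (2B+1)`, error
`C N / (log N) ^ (2B+2) ≤ eps N / (φ(M) p²)` for large `N`, and `φ(p²) ≤ p²`. -/
def QWS_stmt : Prop := ∀ (M b B : ℕ), 0 < M → b.Coprime M → ∀ eps : ℝ, 0 < eps → ∃ N₀ : ℕ, ∀ N : ℕ, N₀ ≤ N →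
  ∀ p : ℕ, p.Prime → ¬ p ∣ M → (p : ℝ) ≤ Real.log N ^ B →
  (1 - eps) * (N / ((Nat.totient M : ℝ) * (p : ℝ) ^ 2)) ≤
    ∑ n ∈ Ioc 0 N with n ≡ b [MOD M] ∧ n ≡ p ^ 2 - 1 [MOD p ^ 2], ArithmeticFunction.vonMangoldt n

/-- **QWL** (large sieve for the moduli `p²`; short, medium). The proof of `Pool.Agent.helper85.SQ.psi_large_of`
(Pool/Agent/helper9/SQ/FL.lean; copy it, with `Pool.Agent.helper85.SQ.bv_sq` and `siegel_walfisz 1 1`) with `1 - eps` instead of `1 / 2`: the sum of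
`Λ` over the class `b` modulo `M` up to `N` is `≥ N / φ(M) - C N / log N`, so `- log N ≥ (1 - eps) N / φ(M)` for large `N`. -/
def QWL_stmt : Prop := ∀ (M b : ℕ), 0 < M → b.Coprime M → ∀ eps : ℝ, 0 < eps → ∃ N₀ : ℕ, ∀ N : ℕ, N₀ ≤ N →
  ∀ P : ℕ, Real.log N ^ 10 ≤ P → (P : ℝ) ^ 3 * Real.log N ^ 21 ≤ Real.sqrt N →
  ∀ S : Finset ℕ, (∀ p ∈ S, p.Prime ∧ ¬ p ∣ M ∧ p ≤ P ∧ P ≤ 2 * p) →
  ∑ p ∈ S, (1 - eps) * (N / ((Nat.totient M : ℝ) * (p : ℝ) ^ 2)) - N / (P * Real.log N ^ 2) ≤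
    ∑ p ∈ S, ∑ n ∈ Ioc 0 N with n ≡ b [MOD M] ∧ n ≡ p ^ 2 - 1 [MOD p ^ 2], ArithmeticFunction.vonMangoldt n

/-- **QWN** (from `n` to `a`; short, medium). `n = a p² - 1` with `a = (n + 1) / p²` for the `n ≡ - 1` modulo `p²`: `n ≤ N` gives
`a p² ≤ N + 1 ≤ ⌊X⌋₊ p²`, `a ≥ 1`, and `a p² ≡ r + 1 ≡ a₀ b² ≡ a₀ p²` modulo `W`, `p` prime to `W`, so `a ≡ a₀`. Prime `n` contribute `≤ log N` each; the
others `≤ 2 √N log N` in total (`Pool.Agent.helper85.SQ.pm_powers`, Pool/Agent/helper97/SQ/PM.lean). Compare the end of `first_moment`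
(Pool/Agent/helper85/SQ/FM.lean) and `FC` (Pool/Agent/helper96/SQ/FC.lean). -/
def QWN_stmt : Prop := ∀ (W a₀ b r p N : ℕ) (X : ℝ), 0 < W → p.Prime → p.Coprime W → p ≡ b [MOD W] →
  r + 1 ≡ a₀ * b ^ 2 [MOD W] → 1 ≤ N → N + 1 ≤ ⌊X⌋₊ * p ^ 2 →
  ∑ n ∈ Ioc 0 N with n ≡ r [MOD W] ∧ n ≡ p ^ 2 - 1 [MOD p ^ 2], ArithmeticFunction.vonMangoldt n ≤
    Real.log N * (((As W a₀ X).filter (fun a => (a * p ^ 2 - 1).Prime)).card : ℝ) +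
      2 * Real.sqrt N * Real.log N

/-- **QWM** (the first moment; From QWS, QWL, QWN; medium). `W = primorial w`, `φ = φ(W)`, `r = a₀ b² + W - 1`; `r` is prime to `W` by the
hypothesis on `a₀ b²`; all `p ∈ Ps W b P` are prime to `W` (so `> w`). Always `N ≤ X P²`, `log N ≤ 1.0002 log X`. `ψ_p(N)` = the sum of `Λ` in QWN.
(1) `P ≤ (log X) ^ 13`: for each `p` QWS (`B = 13`, `N = ⌊X⌋₊ p² - 1 ≥ X`): `ψ_p(N) ≥ (1 - eps') N / (φ p²) ≥ (1 - 2 eps') X / φ`, and QWN, where `2 √N log N ≤ eps' X / φ`.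
(2) `P > (log X) ^ 13`. Let `δ` be small in terms of `eps`, `J` such that `θ = (1 - δ) ^ J` is small in terms of `eps` and `w`: the primes
`p ≤ θ P` are at most `8 θ P / log (θ P) ≤ eps' |Ps W b P|` (`Pool.Agent.helper85.BVP.card_primes_le` or Chebyshev, and `Ps_lower`: `|Ps| ≥ P / (32 φ log P)`). Put `Q_j = (1 - δ) ^ j P`, `S_j` = the
`p ∈ Ps W b P` in `(Q_(j+1), Q_j]`, `j < J`, `N_j = ⌊X⌋₊ ⌈Q_(j+1)⌉₊ ^ 2 - 1` (so `N_j + 1 ≤ ⌊X⌋₊ p²` for `p ∈ S_j`, and `N_j ≥ (1 - 3 δ) X Q_j²`). QWL for `S_j`, `N_j`, `⌊Q_j⌋₊` and `eps' = δ`: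
`∑_(p ∈ S_j) ψ_p(N_j) ≥ (1 - 4 δ) |S_j| X / φ - 2 X Q_j / (log X)²`, then QWN for each `p`. Sum over the `J` (fixed) intervals: the errors are
`≤ 2 J X P / (log X)² + 2 P √N log N ≤ eps' |Ps| X / φ` for large `X` as `|Ps| ≥ P / (32 φ log P)`, `log P ≤ 0.0001 log X`: here `log X` is large in terms of `J`. (For `P ≤ X^0.0001` and `log N ≥ log X`
the conditions `(log N)^10 ≤ ⌊Q_j⌋₊` and `P³ (log N)^21 ≤ √N` of QWL hold.) -/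
def QWM_stmt : Prop := ∀ (w : ℕ) (eps : ℝ), 10 ≤ w → 0 < eps → ∃ X₀ : ℝ, ∀ X P : ℝ, X₀ ≤ X → Rg2 1 X P →
  ∀ a₀ b : ℕ, b.Coprime (primorial w) → (∀ l : ℕ, l.Prime → l ≤ w → ¬ (a₀ * b ^ 2 ≡ 1 [MOD l])) →
  (1 - eps) * (((Ps (primorial w) b P).card : ℝ) * X / ((Nat.totient (primorial w) : ℝ) * (1.0002 * Real.log X))) ≤
    ∑ p ∈ Ps (primorial w) b P, (((As (primorial w) a₀ X).filter (fun a => (a * p ^ 2 - 1).Prime)).card : ℝ)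

/-- The primes `p ≤ P` in the class `b` modulo `W` with `a p² - 1` prime. -/
noncomputable def Rq (W b : ℕ) (P : ℝ) (a : ℕ) : Finset ℕ :=
  (Ps W b P).filter (fun p => (a * p ^ 2 - 1).Prime)

/-- **QWV** (pointwise; short, medium). `w < p`, `l ∤ a p² - 1` for all primes `l ≤ X ^ 0.47` as `a p² - 1` is a prime `> X ^ 0.47` (`a ≥ X ^ 0.9`). So `Az (Qm w X η) p a = ∅`,
`Az (Ql X η) p a = ∅`, `|a| ≤ X ≤ X²`, `ft = fw = Sg ((Qm w X η).erase p) (Rr X) ∅ ^ 2 * ξ ∅`, `Sg (..) ∅ = Gs (..)` (`ch K ∅ = 1`), and `Gs ((Qm).erase p) ≥ (1 - 2/w) Gs (Qm)` (`GPR`). -/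
def QWV_stmt : Prop := ∀ w : ℕ, 10 ≤ w → ∀ η : ℝ, 0 < η → η ≤ 1 / 20 → ∃ X₀ : ℝ, ∀ X : ℝ, X₀ ≤ X →
  ∀ ξ : Finset ℕ → ℝ, ξ ∅ = 1 → ∀ a p : ℕ, X ^ (0.9 : ℝ) ≤ a → (a : ℝ) ≤ X → p.Prime → w < p → (a * p ^ 2 - 1).Prime →
  (1 - 2 / w) ^ 2 * Gs (Qm w X η) (Rr X) ^ 2 ≤ ft w X η ξ p (a : ℤ)

/-- **QWP** (one class; From QWA, QWB, QWM, QWV; medium). `T = |Ps W b P|`, `V = Vx (Ql X η) ξ` (QWA), `G = Gs (Qm w X η) (Rr X)`, `N(a) = |Rq W b P a|`, `B(a) = ∑_(p ∈ Ps) ft w X η ξ p a ≥ 0`,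
`m = T G V`, `𝒢` the set on the right. `con` (the theorem `CON_stmt`, closed as in Pool/Agent/helper36/PT/Main0.lean: `have con := ..`, with `KLP` from Pool/Agent/helper82/PT/KLP.lean) with `eps = τ²`, `τ` small:
`∑_(a ∈ As) (B(a) - m)² ≤ τ² (X/W) (T G η)²`, so by Cauchy's inequality (`|As| ≤ X/W + 1 ≤ 2 X/W`) `∑_(a ∈ As) |B(a) - m| ≤ 2 τ (X/W) T G η ≤ 2 τ (X/W) m` (`η ≤ V`).
By QWV `(1 - 2/w)² G² N(a) ≤ B(a)` for `a ≥ X^0.9`. So with QWM and `N(a) ≤ c P / (log P log X)` for `a ∉ 𝒢`: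
`(1 - 2/w)² G² ((1 - eps') T X / (φ 1.0002 log X) - 2 (X/W) c P / (log P log X) - X^0.9 T) ≤ ∑_(a ∈ 𝒢) B(a) ≤ |𝒢| m + 2 τ (X/W) m`. By `Ps_lower` `P / log P ≤ 32 φ T`, so with small `c` (in terms of `w`) the bracket is
`≥ (1 - 2 eps') T X / (φ 1.0002 log X)`. Divide by `m = T G V`: `|𝒢| ≥ (1 - 2/w)² (1 - 2 eps') (G / V) X / (φ 1.0002 log X) - 2 τ X/W`, and by QWB, QWA
`G / V ≥ (1 - eps') Aw w / (Vw V) ≥ (1 - eps') Aw w log X / (2/0.553 + eps')`, `Aw w / φ = 1 / W`. Numbers: `1 / (1.0002 * 2 / 0.553) = 0.27644...`. -/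
def QWP_stmt : Prop := ∃ w₀ : ℕ, ∀ w : ℕ, w₀ ≤ w → ∃ c C X₀ : ℝ, 0 < c ∧ 0 < C ∧ ∀ X P : ℝ, X₀ ≤ X → Rg2 C X P →
  ∀ a₀ b : ℕ, b.Coprime (primorial w) → (∀ l : ℕ, l.Prime → l ≤ w → ¬ (a₀ * b ^ 2 ≡ 1 [MOD l])) →
  0.2761 * (X / (primorial w : ℝ)) ≤ (((As (primorial w) a₀ X).filter (fun a =>
    c * P / (Real.log P * Real.log X) ≤ ((Rq (primorial w) b P a).card : ℝ))).card : ℝ)

/-- **QWF** (From QWP; medium, short). Choose `w ≥ w₀`, `w ≥ 3`, all prime factors of `M` at most `w`: `M ∣ primorial w = W` (`M` squarefree). Sum over the classes `a₀ < W`, `a₀ ≡ 8 mod M`, `a₀` even,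
`a₀ ≢ 1 mod 3` (for these `b` exists: `exists_b`, see the proof of `FNL`, Pool/Agent/helper83/PT/FNL.lean); `Rq W b P a` is contained in the set on the right. A class has at most
`X / W + 1` elements, `0.2761 X / W ≥ 0.276 (X / W + 1)`. -/
def QWF_stmt : Prop := ∀ M : ℕ, Squarefree M → ∃ c C X₀ : ℝ, 0 < c ∧ 0 < C ∧ ∀ X P : ℝ, X₀ ≤ X →
  C * Real.log X * Real.log (Real.log X) ≤ P → P ≤ X ^ (0.0001 : ℝ) →
  0.276 * (((Icc 1 ⌊X⌋₊).filter (fun a => a ≡ 8 [MOD M] ∧ a % 2 = 0 ∧ a % 3 ≠ 1)).card : ℝ) ≤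
    (((Icc 1 ⌊X⌋₊).filter (fun a => (a ≡ 8 [MOD M] ∧ a % 2 = 0 ∧ a % 3 ≠ 1) ∧
      c * P / (Real.log P * Real.log X) ≤
        (((Icc 1 ⌊P⌋₊).filter (fun p => p.Prime ∧ (a * p ^ 2 - 1).Prime)).card : ℝ))).card : ℝ)

end Pool.Agent.PT
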